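import Mathlib

set_option autoImplicit false

namespace Pool.Agent.Work.MP_d5e15b_co

/-- A bigraph with left vertex set `A` and right vertex set `B`. -/
structure Bigraph (A B : Type) where
  /-- the edge relation between left and right vertices -/
  adj : A → B → Prop

namespace Bigraph

variable {A B : Type}

/-- The underlying graph, on the disjoint union of the two sides. -/
def graph (G : Bigraph A B) : SimpleGraph (A ⊕ B) where
  Adj v w := match v, w with
    | Sum.inl a, Sum.inr b => G.adj a b
    | Sum.inr b, Sum.inl a => G.adj a b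
    | _, _ => False
  symm := ⟨by
    rintro (a | b) (a' | b') h
    · exact h
    · exact h
    · exact h
    · exact h⟩
  loopless := ⟨by
    rintro (a | b) h
    · exact h
    · exact h⟩

/-- `p` (a permutation of the left side and a permutation of the right side) is an automorphism
of `G`. -/
def IsAut (G : Bigraph A B) (p : Equiv.Perm A × Equiv.Perm B) : Prop :=
  ∀ a b, G.adj (p.1 a) (p.2 b) ↔ G.adj a b

/-- The action of a pair of permutations on the vertices. -/
def act (p : Equiv.Perm A × Equiv.Perm B) : A ⊕ B → A ⊕ B := Sum.map p.1 p.2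

/-- The set of vertices fixed by `p`. -/
def fixSet (p : Equiv.Perm A × Equiv.Perm B) : Set (A ⊕ B) := {v | act p v = v}

/-- The graph `G - Fix(p)`. -/
def minusFix (G : Bigraph A B) (p : Equiv.Perm A × Equiv.Perm B) :
    SimpleGraph ((fixSet p)ᶜ : Set (A ⊕ B)) :=
  G.graph.induce (fixSet p)ᶜ

/-- `p` is a cut-involution of `G`: an automorphism with `p² = id` such that `G - Fix(p)` is
disconnected. -/
def IsCutInvolution (G : Bigraph A B) (p : Equiv.Perm A × Equiv.Perm B) : Prop :=
  G.IsAut p ∧ p * p = 1 ∧ ¬ (G.minusFix p).Preconnected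

/-- `(p, L)` is a fold of `G`: `p` is a cut-involution, `L` is a union of connected components of
`G - Fix(p)`, and `L`, `Fix(p)`, `p(L)` partition the vertex set. -/
def IsFold (G : Bigraph A B) (p : Equiv.Perm A × Equiv.Perm B) (L : Set (A ⊕ B)) : Prop :=
  G.IsCutInvolution p ∧
  (∃ S : Set (G.minusFix p).ConnectedComponent,
    L = Subtype.val '' {v : ((fixSet p)ᶜ : Set (A ⊕ B)) |
      (G.minusFix p).connectedComponentMk v ∈ S}) ∧
  L ∪ fixSet p ∪ act p '' L = Set.univ ∧
  Disjoint L (fixSet p) ∧ Disjoint L (act p '' L) ∧ Disjoint (fixSet p) (act p '' L)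

open Classical in
/-- The left-folding map of `(p, L)` on the left vertices. -/
noncomputable def foldMap (p : Equiv.Perm A × Equiv.Perm B) (L : Set (A ⊕ B)) : A → A :=
  fun a => if Sum.inl a ∈ L then a else p.1 a

/-- `G` is left-cut-percolating. -/
def LeftCutPercolating (G : Bigraph A B) : Prop :=
  ∃ (m : ℕ) (U : ℕ → Set A), (∃ a, U 0 = {a}) ∧ U m = Set.univ ∧
    ∀ i, i < m → ∃ p L, G.IsFold p L ∧ U (i + 1) = foldMap p L ⁻¹' U i

/-- The group generated by the cut-involutions that are part of a fold. -/
def foldGroup (G : Bigraph A B) : Subgroup (Equiv.Perm A × Equiv.Perm B) :=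
  Subgroup.closure {p | ∃ L, G.IsFold p L}

/-- The group generated by the fold involutions acts transitively on the left vertices. -/
def FoldTransitive (G : Bigraph A B) : Prop :=
  ∀ a a' : A, ∃ p ∈ G.foldGroup, p.1 a = a'

end Bigraph

end Pool.Agent.Work.MP_d5e15b_co
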