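import Mathlib
import Pool.Agent.Work.MP_d5e15b_co.Defs

set_option autoImplicit false

namespace Pool.Agent.Work.MP_d5e15b_co

open Bigraph

/-! ### General facts on folds -/

section general

variable {A B : Type} {G : Bigraph A B} {p : Equiv.Perm A × Equiv.Perm B} {L : Set (A ⊕ B)}

theorem act_act (h : p * p = 1) (v : A ⊕ B) : act p (act p v) = v := by
  have h1 : ∀ a, p.1 (p.1 a) = a := fun a => by
    have := congrArg (fun q : Equiv.Perm A × Equiv.Perm B => q.1 a) h
    simpa using this
  have h2 : ∀ b, p.2 (p.2 b) = b := fun b => by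
    have := congrArg (fun q : Equiv.Perm A × Equiv.Perm B => q.2 b) h
    simpa using this
  rcases v with a | b
  · simp [act, h1]
  · simp [act, h2]

/-- In a fold, adjacent moved vertices are on the same side. -/
theorem fold_closed (hF : G.IsFold p L) {v w : A ⊕ B} (hv : v ∈ L) (hw : w ∉ fixSet p)
    (hadj : G.graph.Adj v w) : w ∈ L := by
  obtain ⟨_, ⟨S, hS⟩, _⟩ := hF
  rw [hS] at hv ⊢
  obtain ⟨⟨v', hv'⟩, hvS, rfl⟩ := hv
  refine ⟨⟨w, hw⟩, ?_, rfl⟩
  have hreach : (G.minusFix p).Reachable ⟨v', hv'⟩ ⟨w, hw⟩ := by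
    apply SimpleGraph.Adj.reachable
    exact hadj
  have : (G.minusFix p).connectedComponentMk ⟨v', hv'⟩
      = (G.minusFix p).connectedComponentMk ⟨w, hw⟩ :=
    SimpleGraph.ConnectedComponent.sound hreach
  show (G.minusFix p).connectedComponentMk ⟨w, hw⟩ ∈ S
  rw [← this]
  exact hvS

theorem fold_moved (hF : G.IsFold p L) {v : A ⊕ B} (hv : v ∈ L) : act p v ∉ L := by
  obtain ⟨hcut, _, _, _, hd, _⟩ := hF
  intro h
  have : v ∈ act p '' L := ⟨act p v, h, act_act hcut.2.1 v⟩
  exact Set.disjoint_left.1 hd hv this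

theorem fold_notMem_fix (hF : G.IsFold p L) {v : A ⊕ B} (hv : v ∈ L) : v ∉ fixSet p := by
  obtain ⟨_, _, _, hd, _⟩ := hF
  exact Set.disjoint_left.1 hd hv

theorem fold_cases (hF : G.IsFold p L) {v : A ⊕ B} (hv : v ∉ fixSet p) :
    v ∈ L ∨ act p v ∈ L := by
  obtain ⟨hcut, _, hu, _⟩ := hF
  have : v ∈ L ∪ fixSet p ∪ act p '' L := by rw [hu]; trivial
  rcases this with (h | h) | h
  · exact Or.inl h
  · exact absurd h hv
  · obtain ⟨w, hw, rfl⟩ := h
    exact Or.inr (by rw [act_act hcut.2.1]; exact hw)

theorem notMem_fix_act (h : p * p = 1) {v : A ⊕ B} (hv : v ∉ fixSet p) : act p v ∉ fixSet p := by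
  intro h2
  apply hv
  have h3 : act p (act p v) = act p v := h2
  rw [act_act h] at h3
  exact h3.symm

/-- If a moved vertex `w` is adjacent to `v` and to `act p v`, contradiction. -/
theorem fold_no_bridge (hF : G.IsFold p L) {v w : A ⊕ B} (hv : v ∉ fixSet p)
    (hw : w ∉ fixSet p) (h1 : G.graph.Adj v w) (h2 : G.graph.Adj (act p v) w) : False := by
  have hcut := hF.1
  rcases fold_cases hF hv with h | h
  · have hwL := fold_closed hF h hw h1
    exact fold_moved hF h (fold_closed hF hwL (notMem_fix_act hcut.2.1 hv) h2.symm)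
  · have hwL := fold_closed hF h hw h2
    have hvL := fold_closed hF hwL hv h1.symm
    exact fold_moved hF hvL h

/-- Two moved vertices with a common moved neighbour are on the same side. -/
theorem fold_same_side (hF : G.IsFold p L) {v v' w : A ⊕ B} (hv : v ∉ fixSet p)
    (hv' : v' ∉ fixSet p) (hw : w ∉ fixSet p) (h1 : G.graph.Adj v w) (h2 : G.graph.Adj v' w) :
    v ∈ L ↔ v' ∈ L := by
  constructor
  · intro h
    exact fold_closed hF (fold_closed hF h hw h1) hv' h2.symm
  · intro h
    exact fold_closed hF (fold_closed hF h hw h2) hv h1.symm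

end general

/-! ### The example -/

/-- Left vertices: two copies of `Z_5`. -/
abbrev LV : Type := ZMod 5 × Bool

/-- Right vertices: a universal vertex `none`, and in each copy (`j`) the edges of the 5-cycle
(`kind = false`) and the complements of single vertices (`kind = true`). -/
abbrev RV : Type := Option (ZMod 5 × Bool × Bool)

/-- The edge relation. -/
def exAdj : LV → RV → Bool
  | _, none => true
  | (x, i), some (y, j, true) => i == j && !(x == y)
  | (x, i), some (y, j, false) => i == j && (x == y || x == y + 1)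

/-- The example. -/
def ex : Bigraph LV RV := ⟨fun a b => exAdj a b = true⟩

instance (a : LV) (b : RV) : Decidable (ex.adj a b) := inferInstanceAs (Decidable (exAdj a b = true))

/-- The swap of the two copies with a twist by `c`. -/
def swapL (c : ZMod 5) : Equiv.Perm LV where
  toFun := fun ⟨x, i⟩ => if i then (x - c, false) else (x + c, true)
  invFun := fun ⟨x, i⟩ => if i then (x - c, false) else (x + c, true)
  left_inv := by rintro ⟨x, i⟩; cases i <;> simp
  right_inv := by rintro ⟨x, i⟩; cases i <;> simp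

/-- The swap on the right side. -/
def swapR (c : ZMod 5) : Equiv.Perm RV where
  toFun := fun b => match b with
    | none => none
    | some (y, j, t) => if j then some (y - c, false, t) else some (y + c, true, t)
  invFun := fun b => match b with
    | none => none
    | some (y, j, t) => if j then some (y - c, false, t) else some (y + c, true, t)
  left_inv := by rintro (_ | ⟨y, j, t⟩) <;> [rfl; (cases j <;> simp)]
  right_inv := by rintro (_ | ⟨y, j, t⟩) <;> [rfl; (cases j <;> simp)]

/-- The swap as a pair. -/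
def sw (c : ZMod 5) : Equiv.Perm LV × Equiv.Perm RV := (swapL c, swapR c)

theorem sw_aut (c : ZMod 5) : ex.IsAut (sw c) := by
  intro a b
  revert c a b
  decide

theorem sw_sq (c : ZMod 5) : sw c * sw c = 1 := by
  apply Prod.ext
  · apply Equiv.ext
    rintro ⟨x, i⟩
    cases i <;> simp [sw, swapL]
  · apply Equiv.ext
    rintro (_ | ⟨y, j, t⟩)
    · rfl
    · cases j <;> simp [sw, swapR]

/-- The copy of a vertex; `none` belongs to no copy. -/
def copyOf : LV ⊕ RV → Option Bool
  | Sum.inl (_, i) => some i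
  | Sum.inr none => none
  | Sum.inr (some (_, j, _)) => some j

theorem sw_copy (c : ZMod 5) (v : LV ⊕ RV) : copyOf (act (sw c) v) = (copyOf v).map (! ·) := by
  rcases v with ⟨x, i⟩ | (_ | ⟨y, j, t⟩)
  · cases i <;> rfl
  · rfl
  · cases j <;> rfl

theorem sw_fix (c : ZMod 5) (v : LV ⊕ RV) : v ∈ fixSet (sw c) ↔ copyOf v = none := by
  constructor
  · intro h
    have h1 : act (sw c) v = v := h
    have h2 := sw_copy c v
    rw [h1] at h2
    cases hc : copyOf v with
    | none => rfl
    | some b => rw [hc] at h2; cases b <;> simp at h2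
  · intro h
    rcases v with ⟨x, i⟩ | (_ | ⟨y, j, t⟩)
    · simp [copyOf] at h
    · rfl
    · simp [copyOf] at h

theorem adj_copy {v w : LV ⊕ RV} (h : ex.graph.Adj v w) (hv : copyOf v ≠ none)
    (hw : copyOf w ≠ none) : copyOf v = copyOf w := by
  have key : ∀ (a : LV) (b : RV), ex.adj a b → copyOf (Sum.inr b) ≠ none →
      copyOf (Sum.inl a) = copyOf (Sum.inr b) := by
    rintro ⟨x, i⟩ (_ | ⟨y, j, t⟩) hadj hne
    · exact absurd rfl hne
    · cases t <;> simp [ex, exAdj] at hadj <;> simp [copyOf, hadj.1]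
  rcases v with a | b <;> rcases w with a' | b'
  · exact h.elim
  · exact key a b' h hw
  · exact (key a' b h hv).symm
  · exact h.elim

theorem reach_copy (c : ZMod 5) {v w : ((fixSet (sw c))ᶜ : Set (LV ⊕ RV))}
    (h : (ex.minusFix (sw c)).Reachable v w) : copyOf v.1 = copyOf w.1 := by
  obtain ⟨walk⟩ := h
  induction walk with
  | nil => rfl
  | @cons u v w hadj _ ih =>
    rw [← ih]
    exact adj_copy hadj (fun h => u.2 ((sw_fix c u.1).2 h)) (fun h => v.2 ((sw_fix c v.1).2 h))

/-- The side of the fold. -/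
def side : Set (LV ⊕ RV) := {v | copyOf v = some false}

theorem sw_fold (c : ZMod 5) : ex.IsFold (sw c) side := by
  refine ⟨⟨sw_aut c, sw_sq c, ?_⟩, ⟨{C | ∃ v, copyOf v.1 = some false ∧
    (ex.minusFix (sw c)).connectedComponentMk v = C}, ?_⟩, ?_, ?_, ?_, ?_⟩
  · intro h
    have hx : (Sum.inl (0, false) : LV ⊕ RV) ∈ ((fixSet (sw c))ᶜ : Set (LV ⊕ RV)) := by
      intro h2
      rw [sw_fix] at h2
      simp [copyOf] at h2
    have hy : (Sum.inl (0, true) : LV ⊕ RV) ∈ ((fixSet (sw c))ᶜ : Set (LV ⊕ RV)) := by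
      intro h2
      rw [sw_fix] at h2
      simp [copyOf] at h2
    have := reach_copy c (h ⟨_, hx⟩ ⟨_, hy⟩)
    simp [copyOf] at this
  · ext v
    constructor
    · intro hv
      have hv' : copyOf v = some false := hv
      have hne : v ∉ fixSet (sw c) := by
        rw [sw_fix, hv']
        simp
      exact ⟨⟨v, hne⟩, ⟨⟨v, hne⟩, hv', rfl⟩, rfl⟩
    · rintro ⟨v', ⟨w, hw, hC⟩, rfl⟩
      have h1 := reach_copy c (SimpleGraph.ConnectedComponent.exact hC)
      show copyOf v'.1 = some false
      rw [← h1]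
      exact hw
  · ext v
    simp only [Set.mem_univ, iff_true]
    cases hc : copyOf v with
    | none => exact Or.inl (Or.inr ((sw_fix c v).2 hc))
    | some b =>
      cases b with
      | false => exact Or.inl (Or.inl hc)
      | true =>
        refine Or.inr ⟨act (sw c) v, ?_, act_act (sw_sq c) v⟩
        show copyOf (act (sw c) v) = some false
        rw [sw_copy, hc]
        rfl
  · rw [Set.disjoint_left]
    intro v hv hf
    rw [sw_fix] at hf
    have hv' : copyOf v = some false := hv
    rw [hf] at hv'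
    exact absurd hv' (by simp)
  · rw [Set.disjoint_left]
    rintro v hv ⟨w, hw, rfl⟩
    have hv' : copyOf (act (sw c) w) = some false := hv
    have hw' : copyOf w = some false := hw
    rw [sw_copy, hw'] at hv'
    simp at hv'
  · rw [Set.disjoint_left]
    rintro v hf ⟨w, hw, rfl⟩
    rw [sw_fix] at hf
    have hw' : copyOf w = some false := hw
    rw [sw_copy, hw'] at hf
    simp at hf

theorem ex_transitive : ex.FoldTransitive := by
  have hmem : ∀ c, sw c ∈ ex.foldGroup := fun c => Subgroup.subset_closure ⟨side, sw_fold c⟩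
  rintro ⟨x, i⟩ ⟨y, j⟩
  cases i <;> cases j
  · refine ⟨sw (x - y) * sw 0, mul_mem (hmem _) (hmem _), ?_⟩
    simp [sw, swapL]
  · refine ⟨sw (y - x), hmem _, ?_⟩
    simp [sw, swapL]
  · refine ⟨sw (x - y), hmem _, ?_⟩
    simp [sw, swapL]
  · refine ⟨sw (y - x) * sw 0, mul_mem (hmem _) (hmem _), ?_⟩
    simp [sw, swapL]

/-! ### The example is not left-cut-percolating -/

section aut

variable {p : Equiv.Perm LV × Equiv.Perm RV}

theorem not_adj_other (y : ZMod 5) (j t : Bool) : ¬ ex.adj (0, !j) (some (y, j, t)) := by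
  revert y j t
  decide

theorem aut_none (hp : ex.IsAut p) : p.2 none = none := by
  cases hb : p.2 none with
  | none => rfl
  | some b =>
    obtain ⟨y, j, t⟩ := b
    exfalso
    have h1 : ex.adj (0, !j) (some (y, j, t)) := by
      have h2 := (hp (p.1.symm (0, !j)) none).2 rfl
      rw [hb, Equiv.apply_symm_apply] at h2
      exact h2
    exact not_adj_other y j t h1

theorem aut_some (hp : ex.IsAut p) (b : ZMod 5 × Bool × Bool) : ∃ b', p.2 (some b) = some b' := by
  cases hb : p.2 (some b) with
  | none =>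
    exfalso
    rw [← aut_none hp] at hb
    exact absurd (p.2.injective hb) (by simp)
  | some b' => exact ⟨b', rfl⟩

theorem adj_some_copy {x : LV} {b : ZMod 5 × Bool × Bool} (h : ex.adj x (some b)) :
    x.2 = b.2.1 := by
  obtain ⟨x, i⟩ := x
  obtain ⟨y, j, t⟩ := b
  revert h
  revert x i y j t
  decide

theorem exists_other (x x' : ZMod 5) : ∃ y : ZMod 5, x ≠ y ∧ x' ≠ y := by
  revert x x'
  decide

theorem adj_co {x y : ZMod 5} {i : Bool} (h : x ≠ y) : ex.adj (x, i) (some (y, i, true)) := by
  revert x y i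
  decide

theorem not_adj_co {y : ZMod 5} {i : Bool} : ¬ ex.adj (y, i) (some (y, i, true)) := by
  revert y i
  decide

/-- Automorphisms preserve the relation of being in the same copy. -/
theorem aut_same (hp : ex.IsAut p) {a a' : LV} (h : a.2 = a'.2) : (p.1 a).2 = (p.1 a').2 := by
  obtain ⟨x, i⟩ := a
  obtain ⟨x', i'⟩ := a'
  simp only at h
  subst h
  obtain ⟨y, hy, hy'⟩ := exists_other x x'
  obtain ⟨b', hb'⟩ := aut_some hp (y, i, true)
  have h1 := (hp (x, i) (some (y, i, true))).2 (adj_co hy)
  have h2 := (hp (x', i) (some (y, i, true))).2 (adj_co hy')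
  rw [hb'] at h1 h2
  rw [adj_some_copy h1, adj_some_copy h2]

theorem cycle_fact (b b' : ZMod 5) (h : b ≠ b') : ∃ a y : ZMod 5, a ≠ b ∧ a ≠ b' ∧
    (∀ i : Bool, ex.adj (a, i) (some (y, i, false)) ∧ ex.adj (b, i) (some (y, i, false))) ∧
    (∀ (y' : ZMod 5) (i : Bool), ¬ (ex.adj (a, i) (some (y', i, false)) ∧
      ex.adj (b', i) (some (y', i, false)))) ∧
    (∀ (x : ZMod 5) (i : Bool), ex.adj (x, i) (some (y, i, false)) → x = a ∨ x = b) := by
  revert b b'
  decide

theorem exists_third (a b c : ZMod 5) : ∃ x : ZMod 5, x ≠ a ∧ x ≠ b ∧ x ≠ c := by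
  revert a b c
  decide

/-- No automorphism acts as a transposition on a copy. -/
theorem no_transposition (hp : ex.IsAut p) (hsq : p * p = 1) {i : Bool} {b b' : ZMod 5}
    (hb : p.1 (b, i) = (b', i)) (hne : b ≠ b') :
    ∃ x : ZMod 5, x ≠ b ∧ x ≠ b' ∧ p.1 (x, i) ≠ (x, i) := by
  by_contra hcon
  push Not at hcon
  have hpp : ∀ a, p.1 (p.1 a) = a := fun a => by
    have := congrArg (fun q : Equiv.Perm LV × Equiv.Perm RV => q.1 a) hsq
    simpa using this
  obtain ⟨a, y, hab, hab', hadj, hno, honly⟩ := cycle_fact b b' hne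
  have hafix : p.1 (a, i) = (a, i) := hcon a hab hab'
  obtain ⟨⟨y', j', t'⟩, he⟩ := aut_some hp (y, i, false)
  have h1 := (hp (a, i) (some (y, i, false))).2 (hadj i).1
  have h2 := (hp (b, i) (some (y, i, false))).2 (hadj i).2
  rw [he, hafix] at h1
  rw [he, hb] at h2
  have hj : i = j' := adj_some_copy h1
  subst hj
  cases t' with
  | false => exact hno y' i ⟨h1, h2⟩
  | true =>
    obtain ⟨x, hxa, hxb', hxy⟩ := exists_third a b' y'
    have h3 : ex.adj (x, i) (some (y', i, true)) := adj_co hxy
    have h4 : ex.adj (p.1 (x, i)) (some (y, i, false)) := by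
      rw [← hp, he, hpp]
      exact h3
    have h5 : (p.1 (x, i)).2 = i := adj_some_copy h4
    have h6 : p.1 (x, i) = ((p.1 (x, i)).1, i) := Prod.ext rfl h5
    rw [h6] at h4
    rcases honly _ _ h4 with h7 | h7
    · rw [h7] at h6
      have := hpp (x, i)
      rw [h6, hafix] at this
      exact hxa (congrArg Prod.fst this).symm
    · rw [h7] at h6
      have := hpp (x, i)
      rw [h6, hb] at this
      exact hxb' (congrArg Prod.fst this).symm

end aut

theorem foldMap_spec {p : Equiv.Perm LV × Equiv.Perm RV} {L : Set (LV ⊕ RV)}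
    (hF : ex.IsFold p L) {a a' : LV} (h : a.2 = a'.2) :
    (foldMap p L a).2 = (foldMap p L a').2 ∧ (foldMap p L a = foldMap p L a' → a = a') := by
  classical
  have hp : ex.IsAut p := hF.1.1
  have hsq : p * p = 1 := hF.1.2.1
  obtain ⟨x, i⟩ := a
  obtain ⟨x', i'⟩ := a'
  simp only at h
  subst h
  by_cases hcopy : (p.1 (x, i)).2 = i
  · -- the copy is preserved; then it is fixed pointwise
    have hfix : ∀ b : ZMod 5, p.1 (b, i) = (b, i) := by
      intro b
      by_contra hb
      have hbi : (p.1 (b, i)).2 = i := by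
        rw [← aut_same hp (a := (x, i)) (a' := (b, i)) rfl]; exact hcopy
      obtain ⟨b', hb'⟩ : ∃ b', p.1 (b, i) = (b', i) := ⟨(p.1 (b, i)).1, Prod.ext rfl hbi⟩
      have hne : b ≠ b' := by
        intro hbb
        apply hb
        rw [hb', hbb]
      obtain ⟨z, hzb, hzb', hzm⟩ := no_transposition hp hsq hb' hne
      have hzi : (p.1 (z, i)).2 = i := by
        rw [← aut_same hp (a := (x, i)) (a' := (z, i)) rfl]; exact hcopy
      have hv : (Sum.inl (b, i) : LV ⊕ RV) ∉ fixSet p := by
        intro hmem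
        have : (Sum.inl (p.1 (b, i)) : LV ⊕ RV) = Sum.inl (b, i) := hmem
        exact hb (Sum.inl_injective this)
      have hw : (Sum.inr (some (z, i, true)) : LV ⊕ RV) ∉ fixSet p := by
        intro hmem
        have h1 : (Sum.inr (p.2 (some (z, i, true))) : LV ⊕ RV) = Sum.inr (some (z, i, true)) :=
          hmem
        have h2 : p.2 (some (z, i, true)) = some (z, i, true) := Sum.inr_injective h1
        have h3 : ¬ ex.adj (p.1 (z, i)) (some (z, i, true)) := by
          have h4 := hp (z, i) (some (z, i, true))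
          rw [h2] at h4
          rw [h4]
          exact not_adj_co
        apply h3
        have h6 : p.1 (z, i) = ((p.1 (z, i)).1, i) := Prod.ext rfl hzi
        rw [h6]
        apply adj_co
        intro h7
        apply hzm
        rw [h6, h7]
      refine fold_no_bridge hF hv hw ?_ ?_
      · show ex.adj (b, i) (some (z, i, true))
        exact adj_co hzb.symm
      · show ex.adj (p.1 (b, i)) (some (z, i, true))
        rw [hb']
        exact adj_co hzb'.symm
    have hid : ∀ b : ZMod 5, foldMap p L (b, i) = (b, i) := by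
      intro b
      unfold foldMap
      split_ifs
      · rfl
      · exact hfix b
    rw [hid, hid]
    exact ⟨rfl, fun h => h⟩
  · -- the copy is moved to the other one
    have hmoved : ∀ b : ZMod 5, (p.1 (b, i)).2 ≠ i := by
      intro b hb
      apply hcopy
      rw [aut_same hp (a := (x, i)) (a' := (b, i)) rfl]; exact hb
    obtain ⟨y, hy, hy'⟩ := exists_other x x'
    have hv : ∀ b : ZMod 5, (Sum.inl (b, i) : LV ⊕ RV) ∉ fixSet p := by
      intro b hmem
      have h1 : (Sum.inl (p.1 (b, i)) : LV ⊕ RV) = Sum.inl (b, i) := hmem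
      have h2 := Sum.inl_injective h1
      exact hmoved b (congrArg Prod.snd h2)
    have hw : (Sum.inr (some (y, i, true)) : LV ⊕ RV) ∉ fixSet p := by
      intro hmem
      have h1 : (Sum.inr (p.2 (some (y, i, true))) : LV ⊕ RV) = Sum.inr (some (y, i, true)) :=
        hmem
      have h2 := Sum.inr_injective h1
      have h3 := (hp (x, i) (some (y, i, true))).2 (adj_co hy)
      rw [h2] at h3
      exact hmoved x (adj_some_copy h3)
    have hside : (Sum.inl (x, i) : LV ⊕ RV) ∈ L ↔ (Sum.inl (x', i) : LV ⊕ RV) ∈ L :=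
      fold_same_side hF (hv x) (hv x') hw (adj_co hy) (adj_co hy')
    unfold foldMap
    by_cases hL : (Sum.inl (x, i) : LV ⊕ RV) ∈ L
    · rw [if_pos hL, if_pos (hside.1 hL)]
      exact ⟨rfl, fun h => h⟩
    · rw [if_neg hL, if_neg (fun h => hL (hside.2 h))]
      exact ⟨aut_same hp rfl, fun h => p.1.injective h⟩

theorem ex_not_percolating : ¬ ex.LeftCutPercolating := by
  rintro ⟨m, U, ⟨a, ha⟩, hm, hstep⟩
  have hinv : ∀ i, i ≤ m → ∀ b ∈ U i, ∀ b' ∈ U i, b.2 = b'.2 → b = b' := by
    intro i
    induction i with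
    | zero =>
      intro _ b hb b' hb' _
      rw [ha] at hb hb'
      rw [Set.mem_singleton_iff.1 hb, Set.mem_singleton_iff.1 hb']
    | succ i ih =>
      intro hi b hb b' hb' hbb
      obtain ⟨p, L, hF, hU⟩ := hstep i (by omega)
      rw [hU] at hb hb'
      obtain ⟨h1, h2⟩ := foldMap_spec hF hbb
      exact h2 (ih (by omega) _ hb _ hb' h1)
  have h := hinv m le_rfl (0, false) (by rw [hm]; trivial) (1, false) (by rw [hm]; trivial) rfl
  exact absurd h (by decide)

theorem ex_connected : ex.graph.Connected := by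
  have hz : ∀ v : LV ⊕ RV, ex.graph.Reachable v (Sum.inr none) := by
    have hl : ∀ a : LV, ex.graph.Reachable (Sum.inl a) (Sum.inr none) := fun a =>
      SimpleGraph.Adj.reachable (show ex.adj a none from rfl)
    rintro (a | (_ | ⟨y, j, t⟩))
    · exact hl a
    · exact SimpleGraph.Reachable.refl _
    · have hex : ∃ x : ZMod 5, ex.adj (x, j) (some (y, j, t)) := by
        revert y j t
        decide
      obtain ⟨x, hx⟩ := hex
      have h1 : ex.graph.Adj (Sum.inl (x, j)) (Sum.inr (some (y, j, t))) := hx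
      exact h1.symm.reachable.trans (hl _)
  have : Nonempty (LV ⊕ RV) := ⟨Sum.inr none⟩
  exact SimpleGraph.Connected.mk (fun v w => (hz v).trans (hz w).symm)

end Pool.Agent.Work.MP_d5e15b_co
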